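import Pool.Agent.helper5.LDH.Spec
import Pool.Agent.helper86.LV.All

/-! Row ldh:LVS -/

set_option autoImplicit false

open Complex MeasureTheory

namespace Pool.Agent.LDH

open Pool.Agent.helper84.DM Pool.Agent.helper78.ED Pool.Agent.DH

theorem LVS_shift (n : ℕ) (hn : 0 < n) (t T₀ : ℝ) :
    (n : ℂ) ^ (-((T₀ : ℂ) * Complex.I)) * (n : ℂ) ^ (-(((t - T₀ : ℝ) : ℂ) * Complex.I)) =
      (n : ℂ) ^ (-((t : ℂ) * Complex.I)) := by
  rw [← Complex.cpow_add _ _ (by exact_mod_cast hn.ne')]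
  congr 1
  push_cast
  ring

theorem LVS_norm (n : ℕ) (hn : 0 < n) (T₀ : ℝ) :
    ‖(n : ℂ) ^ (-((T₀ : ℂ) * Complex.I))‖ = 1 := by
  rw [← Complex.ofReal_natCast, Complex.norm_cpow_eq_rpow_re_of_pos (by exact_mod_cast hn)]
  simp

theorem LVS : LVS_stmt := by
  intro ε hε
  obtain ⟨C, hC, h⟩ := Pool.Agent.LV.large_values ε hε
  refine ⟨C, hC, ?_⟩
  intro T T₁ N a V W hT hN hNT hV hW hsep hval hc
  have hinj : Function.Injective (fun t : ℝ => t - T₁) := fun x y h => by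
    have h' : x - T₁ = y - T₁ := h
    linarith
  have hb : ∀ n ∈ Finset.Ioc N (2 * N), ‖a n * (n : ℂ) ^ (-((T₁ : ℂ) * Complex.I))‖ = ‖a n‖ := by
    intro n hn
    rw [norm_mul, LVS_norm n (by have := (Finset.mem_Ioc.1 hn).1; omega), mul_one]
  have hGb : ∑ n ∈ Finset.Ioc N (2 * N), ‖a n * (n : ℂ) ^ (-((T₁ : ℂ) * Complex.I))‖ ^ 2 =
      ∑ n ∈ Finset.Ioc N (2 * N), ‖a n‖ ^ 2 :=
    Finset.sum_congr rfl fun n hn => by rw [hb n hn]
  have key := h T N (fun n => a n * (n : ℂ) ^ (-((T₁ : ℂ) * Complex.I))) V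
    (W.image fun t => t - T₁) hT hN hNT hV ?_ ?_ ?_ ?_
  · rw [Finset.card_image_of_injective _ hinj] at key
    simp only [hGb] at key
    exact key
  · intro t ht
    obtain ⟨s, hs, rfl⟩ := Finset.mem_image.1 ht
    have := hW s hs
    constructor <;> linarith [this.1, this.2]
  · intro t ht s hs hts
    obtain ⟨t', ht', rfl⟩ := Finset.mem_image.1 ht
    obtain ⟨s', hs', rfl⟩ := Finset.mem_image.1 hs
    have h3 : t' - T₁ - (s' - T₁) = t' - s' := by ring
    rw [h3]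
    exact hsep t' ht' s' hs' fun h => hts (by rw [h])
  · intro t ht
    obtain ⟨s, hs, rfl⟩ := Finset.mem_image.1 ht
    refine (hval s hs).trans (le_of_eq ?_)
    unfold DP
    congr 1
    refine Finset.sum_congr rfl fun n hn => ?_
    have hn0 : 0 < n := by have := (Finset.mem_Ioc.1 hn).1; omega
    rw [mul_assoc, LVS_shift n hn0]
  · simp only [hGb]
    exact hc

end Pool.Agent.LDH
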